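import Pool.Agent.H219_EQ.E

/-!
# No uniform bound for the number of equalizer orbits at infinity
-/

set_option autoImplicit false

namespace Pool.Agent.Results.MP_05f72b_al.NoUniformBound

open Pool.Agent.H219_EQ

/-- For every `C` there are injective endomorphisms `φ, ψ` of the free group of rank five with
trivial equalizer which have continuous extensions to the completion, and for the continuous
extensions `φ', ψ'` the regular points of the equalizer of `φ', ψ'` are not covered by the orbits
of `C` points under left multiplication by the equalizer of `φ, ψ`. -/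
theorem result (C : ℕ) : ∃ φ ψ : Fm 5 →* Fm 5, Function.Injective φ ∧ Function.Injective ψ ∧
    {x | φ x = ψ x} = {1} ∧ (∃ φ', IsExt φ φ') ∧ (∃ ψ', IsExt ψ ψ') ∧
    ∀ φ' ψ' : Fh 5 → Fh 5, IsExt φ φ' → IsExt ψ ψ' →
      ¬ ∃ s : Finset (Fh 5), s.card ≤ C ∧
        ∀ α ∈ Reg φ ψ φ' ψ', ∃ β ∈ s, ∃ x : Fm 5, φ x = ψ x ∧ α = lmul x β :=
  main C

end Pool.Agent.Results.MP_05f72b_al.NoUniformBound
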